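import Mathlib
import Pool.Agent.Helper15.UH.Goals

/-!
# The valuation of the field `L` (packet LVAL for `MP_ba83fc_ag`)
-/

namespace UnrCoh.H68

open UnrCoh

/-! ## General facts on valuation rings -/

section General

variable {E : Type*} [Field E] (W : ValuationSubring E)

theorem val_add_lt {x y : E} (h : W.valuation x < W.valuation y) :
    W.valuation (x + y) = W.valuation y := W.valuation.map_add_eq_of_lt_right h

theorem val_add_lt' {x y : E} (h : W.valuation x < W.valuation y) :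
    W.valuation (y + x) = W.valuation y := W.valuation.map_add_eq_of_lt_left h

theorem val_sub_lt {x y : E} (h : W.valuation x < W.valuation y) :
    W.valuation (x - y) = W.valuation y := by
  rw [W.valuation.map_sub_swap, sub_eq_add_neg]
  have h' : W.valuation (-x) < W.valuation y := by rwa [W.valuation.map_neg]
  exact W.valuation.map_add_eq_of_lt_left h'

theorem val_sub_lt' {x y : E} (h : W.valuation x < W.valuation y) :
    W.valuation (y - x) = W.valuation y := by
  rw [W.valuation.map_sub_swap]; exact val_sub_lt W h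

theorem lt_of_mul_inv {x y : E} (hy : y ≠ 0) (h : W.valuation (x * y⁻¹) < 1) :
    W.valuation x < W.valuation y := by
  have hy' : W.valuation y ≠ 0 := (Valuation.ne_zero_iff _).2 hy
  rw [map_mul, map_inv₀, ← div_eq_mul_inv] at h
  rwa [div_lt_one₀ (zero_lt_iff.2 hy')] at h

theorem sq_val_eq {x y : E} (h : W.valuation (x ^ 2) = W.valuation (y ^ 2)) :
    W.valuation x = W.valuation y := by
  rw [map_pow, map_pow] at h
  exact (pow_left_inj₀ zero_le zero_le two_ne_zero).1 h

variable {L : Type*} [Field L] (f : L →+* E)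

theorem comap_val_le_one (x : L) : (W.comap f).valuation x ≤ 1 ↔ W.valuation (f x) ≤ 1 := by
  rw [ValuationSubring.valuation_le_one_iff, ValuationSubring.valuation_le_one_iff]
  rfl

theorem comap_val_lt_one (x : L) : (W.comap f).valuation x < 1 ↔ W.valuation (f x) < 1 := by
  rcases eq_or_ne x 0 with rfl | hx
  · simp
  have hfx : f x ≠ 0 := by simpa using hx
  have h1 : (W.comap f).valuation x ≠ 0 := (Valuation.ne_zero_iff _).2 hx
  have h2 : W.valuation (f x) ≠ 0 := (Valuation.ne_zero_iff _).2 hfx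
  have h := comap_val_le_one W f x⁻¹
  rw [map_inv₀, map_inv₀, map_inv₀, inv_le_one₀ (zero_lt_iff.2 h1),
    inv_le_one₀ (zero_lt_iff.2 h2)] at h
  rw [← not_le, ← not_le, h]

theorem comap_val_eq_one (x : L) : (W.comap f).valuation x = 1 ↔ W.valuation (f x) = 1 := by
  have h1 := comap_val_le_one W f x
  have h2 := comap_val_lt_one W f x
  constructor
  · intro h
    exact le_antisymm (h1.1 h.le) (not_lt.1 fun h3 => absurd (h2.2 h3) (by rw [h]; exact lt_irrefl _))
  · intro h
    exact le_antisymm (h1.2 h.le) (not_lt.1 fun h3 => absurd (h2.1 h3) (by rw [h]; exact lt_irrefl _))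

end General

/-! ## The residue field is infinite -/

theorem infinite_residue {L : Type*} [Field L] [Algebra ℂ L] (V : ValuationSubring L) :
    Infinite (IsLocalRing.ResidueField V) := by
  by_contra hfin
  rw [not_infinite_iff_finite] at hfin
  have := Fintype.ofFinite (IsLocalRing.ResidueField V)
  set q := Fintype.card (IsLocalRing.ResidueField V) with hq
  have hq2 : 1 < q := Fintype.one_lt_card
  -- a root of X ^ q - X - 1
  obtain ⟨c, hc⟩ : ∃ c : ℂ, c ^ q = c + 1 := by
    have hdeg : (Polynomial.X ^ q - (Polynomial.X + 1) : Polynomial ℂ).degree ≠ 0 := by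
      have h1 : (Polynomial.X ^ q - (Polynomial.X + 1) : Polynomial ℂ).degree = q := by
        rw [Polynomial.degree_sub_eq_left_of_degree_lt]
        · simp
        · rw [Polynomial.degree_X_pow]
          refine lt_of_le_of_lt (Polynomial.degree_add_le _ _) ?_
          rw [Polynomial.degree_X, Polynomial.degree_one]
          refine max_lt ?_ ?_
          · exact_mod_cast hq2
          · exact_mod_cast (by omega : 0 < q)
      rw [h1]
      exact_mod_cast (by omega : q ≠ 0)
    obtain ⟨c, hc⟩ := IsAlgClosed.exists_root _ hdeg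
    refine ⟨c, ?_⟩
    have := hc
    simp only [Polynomial.IsRoot.def, Polynomial.eval_sub, Polynomial.eval_pow, Polynomial.eval_X,
      Polynomial.eval_add, Polynomial.eval_one] at this
    exact sub_eq_zero.1 this
  set d : L := algebraMap ℂ L c with hd
  have hdq : d ^ q = d + 1 := by rw [hd, ← map_pow, hc, map_add, map_one]
  -- `d` is in `V`
  have hdV : d ∈ V := by
    rw [← ValuationSubring.valuation_le_one_iff]
    by_contra hlt
    rw [not_le] at hlt
    have h1 : V.valuation (d + 1) = V.valuation d := by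
      apply val_add_lt'
      rwa [map_one]
    have h2 : V.valuation d ^ q = V.valuation d := by rw [← map_pow, hdq, h1]
    have h3 : V.valuation d < V.valuation d ^ q := lt_self_pow₀ hlt hq2
    exact absurd h2 h3.ne'
  have h := FiniteField.pow_card (IsLocalRing.residue V ⟨d, hdV⟩)
  rw [← hq, ← map_pow, ← sub_eq_zero, ← map_sub] at h
  have h1 : (⟨d, hdV⟩ : V) ^ q - ⟨d, hdV⟩ = 1 := by
    apply Subtype.ext
    push_cast
    rw [hdq]; ring
  rw [h1, map_one] at h
  exact one_ne_zero h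


/-! ## The computation of the values -/

theorem tt_sq (ρ : ℂ) (m : ℕ) : tt ρ m ^ 2 = kk m - ρ := csq_sq _

/-- The values of the relevant elements. -/
structure Vals (ρ : ℂ) (i j : ℕ) (W : ValuationSubring E6) : Prop where
  two : W.valuation 2 = 1
  mono : ∀ (c : ℂ) (α : Fin 6 → ℤ), c ≠ 0 → (∃ l, α l ≠ 0) →
    W.valuation (algebraMap ℂ E6 c * ∏ l, zz ρ l ^ α l) ≠ 1
  adj : ∀ g ∈ IntermediateField.adjoin ℂ (Set.range (zz ρ)), g ≠ 0 →
        ∃ (c : ℂ) (α : Fin 6 → ℤ), c ≠ 0 ∧
          W.valuation g = W.valuation (algebraMap ℂ E6 c * ∏ l, zz ρ l ^ α l)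
  ax : W.valuation (aa ex) = W.valuation ex
  hP : W.valuation (eP ρ) = W.valuation (ex * ey * ek ρ)
  hQ : W.valuation (eQ ρ) = W.valuation eu
  ht : W.valuation et = W.valuation (algebraMap ℂ E6 (tt ρ i))
  hC : W.valuation ((et - algebraMap ℂ E6 (tt ρ i)) * (et - algebraMap ℂ E6 (tt ρ j))) =
    W.valuation (ek ρ)

theorem vals (h1 : S_SEQ) (h2 : S_CONST) (h3 : S_MONO) (h5 : S_EQN) (h6 : S_IND)
    (ρ : ℂ) (hρ : Transcendental ℚ ρ) (i j : ℕ) (hij : i ≠ j) :
    ∃ W : ValuationSubring E6, Vals ρ i j W := by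
  obtain ⟨A, hA3, hAt, hAtj, hAs, hAρ⟩ := h2 ρ hρ i j hij
  obtain ⟨-, -, -, -, -, hk0, -, -, hseq⟩ := h1
  obtain ⟨hA2, hAk⟩ := hseq A hA3
  have hρ0 : ρ ≠ 0 := by
    rintro rfl
    exact hρ isAlgebraic_zero
  have hind := h6 ρ hρ0
  have hz : ∀ l, zz ρ l ≠ 0 := fun l => hind.ne_zero l
  obtain ⟨W, hW1, hW2, hW3⟩ := h3 E6 A 6 (zz ρ) hind
  have hK0 : ek ρ ≠ 0 := by simpa [zz] using hz 0
  have hy0 : ey ≠ 0 := by simpa [zz] using hz 1
  have hx0 : ex ≠ 0 := by simpa [zz] using hz 2
  have hu0 : eu ≠ 0 := by simpa [zz] using hz 3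
  have hr0 : er ρ ≠ 0 := by simpa [zz] using hz 4
  have hs0 : es ρ ≠ 0 := by simpa [zz] using hz 5
  have cmp : ∀ (c : ℂ) (α : Fin 6 → ℤ) (P Q : E6), Q ≠ 0 → c ≠ 0 →
      (A.valuation c < 1 ∨ (A.valuation c = 1 ∧ LexPos α)) →
      P = algebraMap ℂ E6 c * (∏ l, zz ρ l ^ α l) * Q → W.valuation P < W.valuation Q := by
    intro c α P Q hQ hc hcond hP
    apply lt_of_mul_inv W hQ
    rw [hP, mul_assoc, mul_inv_cancel₀ hQ, mul_one]
    exact hW2 c α hc hcond
  have hA1 : A.valuation (1 : ℂ) = 1 := map_one _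
  have hA9 : A.valuation (9 : ℂ) < 1 := by
    have : (9 : ℂ) = 3 ^ 2 := by norm_num
    rw [this, map_pow]
    exact pow_lt_one₀ zero_le hA3 two_ne_zero
  have hAti0 : tt ρ i ≠ 0 := by
    intro h0
    rw [h0, map_zero] at hAt
    exact absurd hAt (not_lt.2 zero_le)
  have hAρinv : A.valuation ρ⁻¹ < 1 := by
    rw [map_inv₀, hAρ]
    exact inv_lt_one_of_one_lt₀ (one_lt_pow₀ hAt two_ne_zero)
  -- the comparisons
  have w2 : W.valuation (2 : E6) = 1 := by
    have := hW1 2 hA2
    rwa [map_ofNat] at this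
  have wx1 : W.valuation ex < W.valuation 1 :=
    cmp 1 ![0, 0, 1, 0, 0, 0] _ _ one_ne_zero one_ne_zero
      (Or.inr ⟨hA1, by unfold LexPos; decide⟩) (by
        rw [Fin.prod_univ_six]; simp [zz])
  have w9x : W.valuation (9 : E6) < W.valuation ex :=
    cmp 9 ![0, 0, -1, 0, 0, 0] _ _ hx0 (by norm_num)
      (Or.inl hA9) (by
        rw [Fin.prod_univ_six]; simp [zz]; field_simp; exact (map_ofNat _ 9).symm)
  have w1y : W.valuation 1 < W.valuation ey :=
    cmp 1 ![0, 1, 0, 0, 0, 0] _ _ hy0 one_ne_zero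
      (Or.inr ⟨hA1, by unfold LexPos; decide⟩) (by
        rw [Fin.prod_univ_six]; simp [zz]; field_simp)
  have wyK : W.valuation ey < W.valuation (ek ρ ^ 2) :=
    cmp 1 ![2, -1, 0, 0, 0, 0] _ _ (pow_ne_zero 2 hK0) one_ne_zero
      (Or.inr ⟨hA1, by unfold LexPos; decide⟩) (by
        rw [Fin.prod_univ_six]; simp [zz]; field_simp)
  have w1K : W.valuation 1 < W.valuation (ek ρ) :=
    cmp 1 ![1, 0, 0, 0, 0, 0] _ _ hK0 one_ne_zero
      (Or.inr ⟨hA1, by unfold LexPos; decide⟩) (by
        rw [Fin.prod_univ_six]; simp [zz]; field_simp)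
  have wu1 : W.valuation eu < W.valuation 1 :=
    cmp 1 ![0, 0, 0, 1, 0, 0] _ _ one_ne_zero one_ne_zero
      (Or.inr ⟨hA1, by unfold LexPos; decide⟩) (by
        rw [Fin.prod_univ_six]; simp [zz])
  have wρu : W.valuation (algebraMap ℂ E6 ρ⁻¹) < W.valuation eu :=
    cmp ρ⁻¹ ![0, 0, 0, -1, 0, 0] _ _ hu0 (inv_ne_zero hρ0)
      (Or.inl hAρinv) (by
        rw [Fin.prod_univ_six]; simp [zz]; field_simp)
  have wPf : W.valuation (eu * er ρ ^ 2) < W.valuation ((ex * ey * ek ρ) ^ 2) :=
    cmp 1 ![2, 2, -2, 1, 2, 0] _ _ (pow_ne_zero 2 (mul_ne_zero (mul_ne_zero hx0 hy0) hK0))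
      one_ne_zero (Or.inr ⟨hA1, by unfold LexPos; decide⟩) (by
        rw [Fin.prod_univ_six]; simp [zz]; field_simp)
  have wQf : W.valuation (ex * es ρ ^ 2) < W.valuation (eu ^ 2) :=
    cmp 1 ![0, 0, 1, -2, 0, 2] _ _ (pow_ne_zero 2 hu0)
      one_ne_zero (Or.inr ⟨hA1, by unfold LexPos; decide⟩) (by
        rw [Fin.prod_univ_six]; simp [zz]; field_simp)
  have hρE : algebraMap ℂ E6 ρ ≠ 0 := by
    simpa using hρ0
  have wKρ : W.valuation (ek ρ) < W.valuation (algebraMap ℂ E6 ρ) :=
    cmp ρ⁻¹ ![-1, 0, 0, 0, 0, 0] _ _ hρE (inv_ne_zero hρ0)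
      (Or.inl hAρinv) (by
        rw [Fin.prod_univ_six]; simp [zz]; field_simp)
  -- values of the polynomials
  have wax : W.valuation (aa ex) = W.valuation ex := by
    unfold aa
    rw [map_mul, val_add_lt W wx1, map_one, one_mul, val_add_lt' W w9x]
  have wf : W.valuation (ff ex ey (ek ρ)) = W.valuation ((ex * ey * ek ρ) ^ 2) := by
    unfold ff
    rw [map_mul, map_mul, wax, map_mul, map_mul, val_sub_lt' W w1y, val_sub_lt W wyK]
    simp only [map_mul, sq]
    ac_rfl
  have eqn := h5 ρ hρ0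
  have hP : W.valuation (eP ρ) = W.valuation (ex * ey * ek ρ) := by
    apply sq_val_eq W
    rw [eqn.1, val_add_lt' W (by rwa [wf]), wf]
  have whh : W.valuation (eu * hh eu ρ) = W.valuation (eu ^ 2) := by
    unfold hh
    rw [map_mul, map_mul, val_sub_lt W wu1, map_one, one_mul, val_sub_lt' W wρu, map_pow, sq]
  have hQ : W.valuation (eQ ρ) = W.valuation eu := by
    apply sq_val_eq W
    rw [eqn.2.1, val_add_lt' W, whh]
    rw [whh, map_mul, wax, ← map_mul]
    exact wQf
  have wτ : W.valuation (algebraMap ℂ E6 ρ) = W.valuation (algebraMap ℂ E6 (tt ρ i) ^ 2) := by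
    have h : A.valuation (ρ / tt ρ i ^ 2) = 1 := by
      rw [map_div₀, map_pow, hAρ]
      exact div_self (pow_ne_zero 2 ((Valuation.ne_zero_iff _).2 hAti0))
    have h' := hW1 _ h
    rw [map_div₀, map_div₀, map_pow] at h'
    have hne : W.valuation (algebraMap ℂ E6 (tt ρ i) ^ 2) ≠ 0 := by
      rw [Valuation.ne_zero_iff]
      exact pow_ne_zero 2 (by simpa using hAti0)
    exact (div_eq_one_iff_eq hne).1 h'
  have ht2 : et ^ 2 = ek ρ - algebraMap ℂ E6 ρ := by unfold ek; ring
  have ht : W.valuation et = W.valuation (algebraMap ℂ E6 (tt ρ i)) := by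
    apply sq_val_eq W
    rw [ht2, val_sub_lt W wKρ, wτ]
  have hC : W.valuation ((et - algebraMap ℂ E6 (tt ρ i)) * (et - algebraMap ℂ E6 (tt ρ j))) =
      W.valuation (ek ρ) := by
    set a := algebraMap ℂ E6 (tt ρ i) with ha
    set b := algebraMap ℂ E6 (tt ρ j) with hb
    have ha0 : a ≠ 0 := by rw [ha]; simpa using hAti0
    have hwa : W.valuation a ≠ 0 := (Valuation.ne_zero_iff _).2 ha0
    have hA12 : W.valuation ((et - a) * (et + a)) = W.valuation (ek ρ) := by
      have : (et - a) * (et + a) = ek ρ - algebraMap ℂ E6 (kk i) := by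
        have h1 : a ^ 2 = algebraMap ℂ E6 (kk i) - algebraMap ℂ E6 ρ := by
          rw [ha, ← map_pow, tt_sq, map_sub]
        linear_combination ht2 - h1
      rw [this, val_sub_lt' W]
      rw [hW1 _ (hAk i).2.2, ← map_one W.valuation]
      exact w1K
    have hle1 : W.valuation (et - a) ≤ W.valuation a := by
      refine (W.valuation.map_sub _ _).trans (max_le ht.le le_rfl)
    have hle2 : W.valuation (et + a) ≤ W.valuation a := by
      refine (W.valuation.map_add _ _).trans (max_le ht.le le_rfl)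
    have hmax : W.valuation a ≤ max (W.valuation (et + a)) (W.valuation (et - a)) := by
      have h : W.valuation (2 * a) ≤ max (W.valuation (et + a)) (W.valuation (et - a)) := by
        have : 2 * a = (et + a) - (et - a) := by ring
        rw [this]
        exact W.valuation.map_sub _ _
      rwa [map_mul, w2, one_mul] at h
    -- the sum `t_i + t_j` is small
    have hsmall : W.valuation (a + b) * W.valuation a ≤ 1 := by
      rw [← map_mul, ha, hb, ← map_add, ← map_mul]
      rcases eq_or_ne ((tt ρ i + tt ρ j) * tt ρ i) 0 with h0 | h0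
      · rw [h0, map_zero, map_zero]; exact zero_le
      · rw [← map_mul] at hAs
        rcases hAs.lt_or_eq with h | h
        · have := hW2 ((tt ρ i + tt ρ j) * tt ρ i) 0 h0 (Or.inl h)
          simp only [Pi.zero_apply, zpow_zero, Finset.prod_const_one, mul_one] at this
          exact this.le
        · exact (hW1 _ h).le
    have hKτ : W.valuation (ek ρ) < W.valuation a * W.valuation a := by
      rw [← map_mul, ← sq, ← wτ]; exact wKρ
    have h1K : 1 < W.valuation (ek ρ) := by simpa using w1K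
    have hsum : W.valuation (a + b) < W.valuation (et + a) := by
      have hprod : W.valuation (et - a) * W.valuation (et + a) = W.valuation (ek ρ) := by
        rw [← map_mul]; exact hA12
      -- `w(a+b) * w(a) ≤ 1 < w(K) = w(t-a) w(t+a) ≤ w(a) w(t+a)`
      have h3 : W.valuation (a + b) * W.valuation a < W.valuation (et + a) * W.valuation a := by
        calc W.valuation (a + b) * W.valuation a ≤ 1 := hsmall
          _ < W.valuation (ek ρ) := h1K
          _ = W.valuation (et - a) * W.valuation (et + a) := hprod.symm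
          _ ≤ W.valuation a * W.valuation (et + a) := by gcongr
          _ = W.valuation (et + a) * W.valuation a := mul_comm _ _
      exact lt_of_mul_lt_mul_right h3 zero_le
    have hb' : W.valuation (et - b) = W.valuation (et + a) := by
      have : et - b = (et + a) - (a + b) := by ring
      rw [this, val_sub_lt' W hsum]
    rw [map_mul, hb', ← map_mul, hA12]
  refine ⟨W, w2, ?_, hW3, wax, hP, hQ, ht, hC⟩
  -- monomials are not of value one
  intro c α hc hα h1
  have hneg : W.valuation (algebraMap ℂ E6 c⁻¹ * ∏ l, zz ρ l ^ (-α) l) = 1 := by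
    have : algebraMap ℂ E6 c⁻¹ * ∏ l, zz ρ l ^ (-α) l =
        (algebraMap ℂ E6 c * ∏ l, zz ρ l ^ α l)⁻¹ := by
      rw [mul_inv, map_inv₀, ← Finset.prod_inv_distrib]
      simp only [Pi.neg_apply, zpow_neg]
    rw [this, map_inv₀, h1, inv_one]
  have hcinv : c⁻¹ ≠ 0 := inv_ne_zero hc
  rcases lt_trichotomy (A.valuation c) 1 with hlt | heq | hgt
  · exact absurd h1 (hW2 c α hc (Or.inl hlt)).ne
  · have hex : LexPos α ∨ LexPos (-α) := by
      classical
      obtain ⟨l, hl, hmin⟩ : ∃ l, α l ≠ 0 ∧ ∀ m < l, α m = 0 := by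
        have hne : (Finset.univ.filter fun l => α l ≠ 0).Nonempty := by
          obtain ⟨l, hl⟩ := hα
          exact ⟨l, by simpa using hl⟩
        refine ⟨(Finset.univ.filter fun l => α l ≠ 0).min' hne, ?_, ?_⟩
        · have := Finset.min'_mem _ hne
          simpa using this
        · intro m hm
          by_contra hm0
          have : (Finset.univ.filter fun l => α l ≠ 0).min' hne ≤ m :=
            Finset.min'_le _ _ (by simpa using hm0)
          exact absurd hm (not_lt.2 this)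
      rcases lt_or_gt_of_ne hl with h | h
      · right
        exact ⟨l, by simpa using h, fun m hm => by simpa using hmin m hm⟩
      · left
        exact ⟨l, h, hmin⟩
    rcases hex with h | h
    · exact absurd h1 (hW2 c α hc (Or.inr ⟨heq, h⟩)).ne
    · exact absurd hneg (hW2 c⁻¹ (-α) hcinv (Or.inr ⟨by rw [map_inv₀, heq, inv_one], h⟩)).ne
  · have : A.valuation c⁻¹ < 1 := by
      rw [map_inv₀]
      exact inv_lt_one_of_one_lt₀ hgt
    exact absurd hneg (hW2 c⁻¹ (-α) hcinv (Or.inl this)).ne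

/-- every nonzero element of `L` has the value of a monomial -/
theorem val_LL (h4 : S_QUAD) (h5 : S_EQN) (h6 : S_IND) {ρ : ℂ} (hρ0 : ρ ≠ 0) {i j : ℕ}
    {W : ValuationSubring E6} (hW : Vals ρ i j W) (g : E6) (hg : g ∈ LL ρ) (hg0 : g ≠ 0) :
    ∃ (c : ℂ) (α : Fin 6 → ℤ), c ≠ 0 ∧
      W.valuation g = W.valuation (algebraMap ℂ E6 c * ∏ l, zz ρ l ^ α l) := by
  have hind := h6 ρ hρ0
  have eqn := h5 ρ hρ0
  set N := IntermediateField.adjoin ℂ (Set.range (zz ρ)) with hN
  have hzN : ∀ l, zz ρ l ∈ N := fun l => IntermediateField.subset_adjoin ℂ _ ⟨l, rfl⟩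
  have hK : ek ρ ∈ N := by
    have := inv_mem (hzN 0)
    simpa [zz] using this
  have hy : ey ∈ N := by
    have := inv_mem (hzN 1)
    simpa [zz] using this
  have hx : ex ∈ N := by simpa [zz] using hzN 2
  have hu : eu ∈ N := by simpa [zz] using hzN 3
  have hr : er ρ ∈ N := by simpa [zz] using hzN 4
  have hs : es ρ ∈ N := by simpa [zz] using hzN 5
  have hc : ∀ c : ℂ, algebraMap ℂ E6 c ∈ N := fun c => N.algebraMap_mem c
  have hnat : ∀ n : ℕ, (n : E6) ∈ N := fun n => natCast_mem N n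
  have ha : aa ex ∈ N := by
    unfold aa
    exact mul_mem (add_mem hx (one_mem N)) (add_mem hx (by exact_mod_cast hnat 9))
  have hf : ff ex ey (ek ρ) ∈ N := by
    unfold ff
    exact mul_mem (mul_mem hx ha) (mul_mem (mul_mem hy (sub_mem hy (one_mem N)))
      (sub_mem hy (pow_mem hK 2)))
  have hh' : hh eu ρ ∈ N := by
    unfold hh
    exact mul_mem (sub_mem hu (one_mem N)) (sub_mem hu (hc _))
  set F0 : Subfield E6 := N.toSubfield with hF0
  set F1 : Subfield E6 := Subfield.closure ((F0 : Set E6) ∪ {et}) with hF1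
  set F2 : Subfield E6 := Subfield.closure ((F1 : Set E6) ∪ {eP ρ}) with hF2
  set F3 : Subfield E6 := Subfield.closure ((F2 : Set E6) ∪ {eQ ρ}) with hF3
  have i01 : ∀ z ∈ F0, z ∈ F1 := fun z hz => Subfield.subset_closure (Or.inl hz)
  have i12 : ∀ z ∈ F1, z ∈ F2 := fun z hz => Subfield.subset_closure (Or.inl hz)
  have i23 : ∀ z ∈ F2, z ∈ F3 := fun z hz => Subfield.subset_closure (Or.inl hz)
  have iN : ∀ z ∈ N, z ∈ F0 := fun z hz => hz
  have q1 := h4 E6 W hW.two F0 et
    (by
      have : et ^ 2 = ek ρ - algebraMap ℂ E6 ρ := by unfold ek; ring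
      rw [this]
      exact iN _ (sub_mem hK (hc ρ)))
    ⟨algebraMap ℂ E6 (tt ρ i), iN _ (hc _), hW.ht⟩
  have q2 := h4 E6 W hW.two F1 (eP ρ)
    (by
      rw [eqn.1]
      exact i01 _ (iN _ (add_mem hf (mul_mem hu (pow_mem hr 2)))))
    ⟨ex * ey * ek ρ, i01 _ (iN _ (mul_mem (mul_mem hx hy) hK)), hW.hP⟩
  have q3 := h4 E6 W hW.two F2 (eQ ρ)
    (by
      rw [eqn.2.1]
      exact i12 _ (i01 _ (iN _ (add_mem (mul_mem hu hh') (mul_mem ha (pow_mem hs 2))))))
    ⟨eu, i12 _ (i01 _ (iN _ hu)), hW.hQ⟩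
  have hLF : ∀ z ∈ LL ρ, z ∈ F3 := by
    have hle : LL ρ ≤ Subfield.toIntermediateField (K := ℂ) F3
        (fun c => i23 _ (i12 _ (i01 _ (iN _ (hc c))))) := by
      unfold LL
      rw [IntermediateField.adjoin_le_iff]
      intro z hz
      simp only [Set.mem_insert_iff, Set.mem_singleton_iff] at hz
      change z ∈ F3
      rcases hz with rfl | rfl | rfl | rfl | rfl | rfl | rfl | rfl
      · exact i23 _ (i12 _ (Subfield.subset_closure (Or.inr rfl)))
      · exact i23 _ (i12 _ (i01 _ (iN _ hx)))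
      · exact i23 _ (i12 _ (i01 _ (iN _ hy)))
      · exact i23 _ (i12 _ (i01 _ (iN _ hu)))
      · exact i23 _ (i12 _ (i01 _ (iN _ hr)))
      · exact i23 _ (i12 _ (i01 _ (iN _ hs)))
      · exact i23 _ (Subfield.subset_closure (Or.inr rfl))
      · exact Subfield.subset_closure (Or.inr rfl)
    intro z hz
    exact hle hz
  obtain ⟨γ2, hγ2, hγ20, e2⟩ := q3 g (hLF g hg) hg0
  obtain ⟨γ1, hγ1, hγ10, e1⟩ := q2 γ2 hγ2 hγ20
  obtain ⟨γ0, hγ0, hγ00, e0⟩ := q1 γ1 hγ1 hγ10
  obtain ⟨c, α, hc0, hcα⟩ := hW.adj γ0 hγ0 hγ00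
  exact ⟨c, α, hc0, by rw [e2, e1, e0, hcα]⟩

theorem lval (h1 : S_SEQ) (h2 : S_CONST) (h3 : S_MONO) (h4 : S_QUAD) (h5 : S_EQN)
    (h6 : S_IND) : S_LVAL := by
  intro ρ hρ i j hij
  obtain ⟨W, hW⟩ := vals h1 h2 h3 h5 h6 ρ hρ i j hij
  have hρ0 : ρ ≠ 0 := by
    rintro rfl
    exact hρ isAlgebraic_zero
  have hind := h6 ρ hρ0
  have hz : ∀ l, zz ρ l ≠ 0 := fun l => hind.ne_zero l
  refine ⟨W.comap (algebraMap (LL ρ) E6), ?_, infinite_residue _, ?_⟩
  · rw [comap_val_eq_one, map_ofNat]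
    exact hW.two
  intro b hb0 hb1 hb2 hb3 e he x hx h
  rw [comap_val_eq_one] at h
  have hx' : ((x : LL ρ) : E6) ≠ 0 := by
    intro h0
    exact hx (by exact_mod_cast h0)
  obtain ⟨c, α, hc0, hcα⟩ := val_LL h4 h5 h6 hρ0 hW (x : E6) x.2 hx'
  -- the monomial of the product
  set ε : Fin 6 → ℤ := ![-(e 3 : ℕ), -(e 2 : ℕ), (e 1 : ℕ), (e 0 : ℕ), 0, 0] with hε
  refine hW.mono (c ^ 2) (fun l => 2 * α l + ε l) (pow_ne_zero 2 hc0) ?_ ?_
  · have hodd : ∃ l, ε l = 1 ∨ ε l = -1 := by
      have : ∃ m, e m ≠ 0 := by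
        by_contra hcon
        push Not at hcon
        exact he (funext hcon)
      obtain ⟨m, hm⟩ := this
      have hm1 : ((e m : Fin 2) : ℕ) = 1 := by
        have := (e m).isLt
        have h0 : ((e m : Fin 2) : ℕ) ≠ 0 := fun h0 => hm (Fin.ext h0)
        omega
      fin_cases m
      · exact ⟨3, Or.inl (by simpa [hε] using hm1)⟩
      · exact ⟨2, Or.inl (by simpa [hε] using hm1)⟩
      · exact ⟨1, Or.inr (by simpa [hε] using hm1)⟩
      · exact ⟨0, Or.inr (by simpa [hε] using hm1)⟩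
    obtain ⟨l, hl⟩ := hodd
    refine ⟨l, ?_⟩
    rcases hl with hl | hl
    · rw [hl]; omega
    · rw [hl]; omega
  · -- the value of the monomial
    have hmon : algebraMap ℂ E6 (c ^ 2) * ∏ l, zz ρ l ^ (2 * α l + ε l) =
        (algebraMap ℂ E6 c * ∏ l, zz ρ l ^ α l) ^ 2 * ∏ l, zz ρ l ^ ε l := by
      rw [map_pow, mul_pow, ← Finset.prod_pow, mul_assoc, ← Finset.prod_mul_distrib]
      congr 1
      refine Finset.prod_congr rfl fun l _ => ?_
      rw [zpow_add₀ (hz l), mul_comm (2 : ℤ), zpow_mul]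
      rfl
    rw [hmon, map_mul, map_pow, ← hcα]
    have hprod : W.valuation (∏ l, zz ρ l ^ ε l) =
        W.valuation (∏ l, ((b l : LL ρ) : E6) ^ (e l : ℕ)) := by
      rw [Fin.prod_univ_six, Fin.prod_univ_four, hb0, hb1, hb2, hb3]
      simp only [map_mul, map_pow, hε, zz, Matrix.cons_val, zpow_zero, mul_one,
        zpow_neg, zpow_natCast, inv_pow, inv_inv]
      rw [← map_mul, hW.hC, hW.ax]
      ac_rfl
    rw [hprod, ← map_pow, ← map_mul, mul_comm]
    have : (algebraMap (LL ρ) E6) ((∏ l, (b l : LL ρ) ^ (e l : ℕ)) * x ^ 2) =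
        (∏ l, ((b l : LL ρ) : E6) ^ (e l : ℕ)) * (x : E6) ^ 2 := by
      rw [map_mul, map_prod, map_pow]
      simp only [map_pow]
      rfl
    rw [this] at h
    exact h

end UnrCoh.H68
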